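import Pool.Agent.L0h23.FR.Rec
import Pool.Agent.L0h80.F3.Hcd
import Pool.Agent.L0h74.T3.Stm

/-!
# The entries of the linear system for `y² = x³ + D³`
-/

set_option autoImplicit false
set_option linter.unusedSectionVars false

open scoped NumberTheorySymbols

namespace Pool.Agent.L0h86.T3

open Pool.Agent.W192.HK Pool.Agent.Y696 Pool.Agent.Y715.T.Lat
open Pool.Agent.L0h86.F3
open Pool.Agent.Y698.SG (ix lg lg_one lg_neg_one lg_mul sgn_mul mem_ix)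
open Pool.Agent.N973.ND (uu)
open Pool.Agent.L0h23.FR (gJ gz res j2 jneg jsq t_REC t_SUP)
open Pool.Agent.L0h80.F3 (fx ix_PX pf_Q pf_f bt_cj N1_cj sy_cj cj_ez disj)

/-- the coordinates of a normalised element -/
lemma co {x : eis} (h : N1 x) {p : ℕ} (hp : x * cj x = (p : eis)) :
    ∃ c d : ℤ, x = ez (1 + 2 * c - 4 * d) (4 * c - 2 * d) ∧
      bt x = ⟨(c : ZMod 2), (d : ZMod 2)⟩ ∧ (p : ℤ) = (1 - 3 * d) ^ 2 + 3 * (2 * c - d) ^ 2 := by
  obtain ⟨u, hu⟩ := h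
  obtain ⟨c, d, rfl⟩ := ez_ex u
  have e1 : la * ez c d = ez (c - 2 * d) (2 * c - d) := by
    show ez 1 2 * ez c d = _
    rw [ez_mul]
    congr 1 <;> ring
  have e2 : x = 1 + 2 * ez (c - 2 * d) (2 * c - d) := by
    rw [hu, ← e1]
    ring
  have e3 : x = ez (1 + 2 * c - 4 * d) (4 * c - 2 * d) := by
    rw [e2]
    unfold ez
    push_cast
    ring
  refine ⟨c, d, e3, ?_, ?_⟩
  · rw [e2, bt_eq, rho_ez]
    have h2 : (2 : ZMod 2) = 0 := by decide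
    push_cast
    rw [h2, zero_mul, zero_mul, sub_zero, zero_sub, ZMod.neg_eq_self_mod_two]
  · rw [e3, cj_ez, ez_mul] at hp
    have h1 : ((p : ℕ) : eis) = ez (p : ℤ) 0 := by rw [ez_int, Int.cast_natCast]
    rw [h1] at hp
    obtain ⟨h2, -⟩ := ez_inj hp
    linear_combination -h2

lemma zc_even {x : ℤ} (h : x % 2 = 0) : (x : ZMod 2) = 0 :=
  (ZMod.intCast_zmod_eq_zero_iff_dvd x 2).2 (by push_cast; omega)

lemma zc_odd {x : ℤ} (h : x % 2 = 1) : (x : ZMod 2) = 1 := by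
  have : (x : ZMod 2) = ((1 : ℤ) : ZMod 2) := by
    rw [ZMod.intCast_eq_intCast_iff]
    show x % _ = 1 % _
    push_cast
    omega
  rw [this, Int.cast_one]

lemma z2_self (a : ZMod 2) : a + a = 0 := by
  revert a
  decide

lemma uu_co {p : ℕ} (hp : p.Prime) (h3 : p % 3 = 1) {c d : ℤ}
    (h : (p : ℤ) = (1 - 3 * d) ^ 2 + 3 * (2 * c - d) ^ 2) : uu p = (d : ZMod 2) := by
  have ho : p % 2 = 1 := by
    rcases hp.eq_two_or_odd with h2 | h2
    · omega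
    · exact h2
  have hr := res h ho
  unfold uu
  rcases Int.emod_two_eq_zero_or_one d with hd | hd
  · rw [zc_even hd, if_neg (by omega)]
  · rw [zc_odd hd, if_pos (by omega)]

lemma sy_int {p : ℕ} (hp : p.Prime) {x : eis} (hx : x * cj x = (p : eis)) (m : ℤ) :
    sy x (m : eis) = ((J(m | p) : ℤ) : ℂ) :=
  Pool.Agent.L0h23.FR.sy_deg1 hp (Pool.Agent.L0h4.T3.norm_of_cj hx) m

/-- the symbol of the conjugate -/
lemma sy_self {p : ℕ} (hp : p.Prime) (h3 : p % 3 = 1) {x : eis} (hn : N1 x)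
    (hx : x * cj x = (p : eis)) :
    lg (sy x (cj x)) = (bt x).re + uu p + (bt x).re * uu p := by
  obtain ⟨c, d, e1, e2, e3⟩ := co hn hx
  have ho : p % 2 = 1 := by
    rcases hp.eq_two_or_odd with h2 | h2
    · omega
    · exact h2
  have hr := res e3 ho
  have hX0 : (1 - 3 * d) ≠ 0 := by omega
  have hcop : IsCoprime (1 - 3 * d) (p : ℤ) := by
    have hpi := Nat.prime_iff_prime_int.1 hp
    refine IsCoprime.symm ((Prime.coprime_iff_not_dvd hpi).2 fun hdv => ?_)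
    obtain ⟨k, hk⟩ := hdv
    have hp2 : (2 : ℤ) ≤ p := by exact_mod_cast hp.two_le
    have hk0 : k ≠ 0 := by
      rintro rfl
      exact hX0 (by rw [hk, mul_zero])
    have hk1 : 1 ≤ k ^ 2 := by
      have : 0 < k ^ 2 := by positivity
      omega
    have h5 : (p : ℤ) ^ 2 * k ^ 2 ≤ p := by
      have h6 : (p : ℤ) ^ 2 * k ^ 2 = (1 - 3 * d) ^ 2 := by rw [hk]; ring
      rw [h6]
      nlinarith [sq_nonneg (2 * c - d)]
    nlinarith
  have h1 : sy x (cj x) = sy x (((2 * (1 - 3 * d) : ℤ)) : eis) := by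
    refine sy_per x _ _ ?_
    rw [e1, cj_ez, Ideal.mem_span_singleton]
    refine ⟨-1, ?_⟩
    unfold ez
    push_cast
    ring
  rw [h1, sy_int hp hx, jacobiSym.mul_left, gJ e3 ho hcop (by omega), j2 ho, e2,
    uu_co hp h3 e3]
  unfold gz
  have ha : (1 : ZMod 2) + 1 = 0 := by decide
  rcases Int.emod_two_eq_zero_or_one d with hd | hd
  · rw [zc_even hd]
    rcases Int.emod_two_eq_zero_or_one c with hc | hc
    · rw [zc_even hc]
      have h8 : (if p % 8 = 1 ∨ p % 8 = 7 then (1 : ℤ) else -1) *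
          (if (1 - 3 * d) % 4 = 0 ∨ (1 - 3 * d) % 4 = 1 then 1 else -1) = 1 := by
        split_ifs <;> omega
      rw [h8, Int.cast_one, lg_one]
      ring
    · rw [zc_odd hc]
      have h8 : (if p % 8 = 1 ∨ p % 8 = 7 then (1 : ℤ) else -1) *
          (if (1 - 3 * d) % 4 = 0 ∨ (1 - 3 * d) % 4 = 1 then 1 else -1) = -1 := by
        split_ifs <;> omega
      rw [h8, Int.cast_neg, Int.cast_one, lg_neg_one]
      ring
  · rw [zc_odd hd]
    have h8 : (if p % 8 = 1 ∨ p % 8 = 7 then (1 : ℤ) else -1) *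
          (if (1 - 3 * d) % 4 = 0 ∨ (1 - 3 * d) % 4 = 1 then 1 else -1) = -1 := by
      split_ifs <;> omega
    rw [h8, Int.cast_neg, Int.cast_one, lg_neg_one]
    show (1 : ZMod 2) = (c : ZMod 2) + 1 + (c : ZMod 2) * 1
    generalize (c : ZMod 2) = a
    revert a
    decide

/-- the Jacobi symbol and `Pool.Agent.Y703.CQ.nr` -/
lemma lg_J {p n : ℕ} (hp : p.Prime) (hn : ¬ p ∣ n) : lg ((J((n : ℤ) | p) : ℤ) : ℂ) = Pool.Agent.Y703.CQ.nr p n := by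
  have _ : Fact p.Prime := ⟨hp⟩
  have h0 : ((n : ℤ) : ZMod p) ≠ 0 := by
    rw [Int.cast_natCast, Ne, ZMod.natCast_eq_zero_iff]
    exact hn
  rw [← jacobiSym.legendreSym.to_jacobiSym]
  unfold Pool.Agent.Y703.CQ.nr
  by_cases h : IsSquare ((n : ℕ) : ZMod p)
  · rw [if_pos h, (legendreSym.eq_one_iff p h0).2 (by rwa [Int.cast_natCast]), Int.cast_one, lg_one]
  · rw [if_neg h, (legendreSym.eq_neg_one_iff p).2 (by rwa [Int.cast_natCast]), Int.cast_neg,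
      Int.cast_one, lg_neg_one]

section
variable {Q P : Finset ℕ} {ϖ : ℕ → eis}

lemma pP (h : Dt Q P ϖ) {p : ℕ} (hp : p ∈ P) : p ∉ Q := fun hq =>
  Finset.disjoint_left.1 (disj h.q h.p) hq hp

lemma pf_t' (h : Dt Q P ϖ) {p : ℕ} (hp : p ∈ P) : pf Q ϖ (p, true) = cj (ϖ p) := by
  unfold pf
  rw [if_neg (pP h hp), if_pos rfl]

lemma pf_f' (h : Dt Q P ϖ) {p : ℕ} (hp : p ∈ P) : pf Q ϖ (p, false) = ϖ p := pf_f (pP h hp)

lemma cjcj (x : eis) : cj (cj x) = x := Subtype.ext (Complex.conj_conj _)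

lemma prp (h : Dt Q P ϖ) {p : ℕ} (hp : p ∈ P) : Prime (ϖ p) := by
  have := (ix_PX h (i := (p, false)) (mem_ix.2 (Or.inr hp))).pr
  rwa [pf_f' h hp] at this

lemma prpc (h : Dt Q P ϖ) {p : ℕ} (hp : p ∈ P) : Prime (cj (ϖ p)) := by
  have := (ix_PX h (i := (p, true)) (mem_ix.2 (Or.inr hp))).pr
  rwa [pf_t' h hp] at this

lemma m_ff (h : Dt Q P ϖ) {p k : ℕ} (hp : p ∈ P) (hk : k ∈ P) :
    mm (pf Q ϖ) (p, false) (k, false) = lg (sy (ϖ k) (ϖ p)) := by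
  unfold mm
  rw [pf_f' h hp, pf_f' h hk]

lemma m_tt (h : Dt Q P ϖ) {p k : ℕ} (hp : p ∈ P) (hk : k ∈ P) :
    mm (pf Q ϖ) (p, true) (k, true) = lg (sy (ϖ k) (ϖ p)) := by
  unfold mm
  rw [pf_t' h hp, pf_t' h hk, sy_cj]

lemma ndv {p k : ℕ} (hp : p.Prime) (hk : k.Prime) (hne : p ≠ k) : ¬ k ∣ p := fun h1 =>
  hne ((Nat.prime_dvd_prime_iff_eq hk hp).1 h1).symm

/-- the symbols of the conjugate modulo another prime -/
lemma lg_cj (h : Dt Q P ϖ) {p k : ℕ} (hp : p ∈ P) (hk : k ∈ P) (hne : p ≠ k) :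
    lg (sy (ϖ k) (cj (ϖ p))) = lg (sy (ϖ k) (ϖ p)) + Pool.Agent.Y703.CQ.nr k p := by
  have hF := fx h
  have n1 : ϖ p ∉ sp (ϖ k) := by
    have := hF.ne (p, false) (mem_ix.2 (Or.inr hp)) (k, false) (mem_ix.2 (Or.inr hk))
      (fun h1 => hne (Prod.mk.inj h1).1)
    rwa [pf_f' h hp, pf_f' h hk] at this
  have n2 : cj (ϖ p) ∉ sp (ϖ k) := by
    have := hF.ne (p, true) (mem_ix.2 (Or.inr hp)) (k, false) (mem_ix.2 (Or.inr hk))
      (fun h1 => hne (Prod.mk.inj h1).1)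
    rwa [pf_t' h hp, pf_f' h hk] at this
  have h1 := lg_mul (sy_sgn n1) (sy_sgn n2)
  rw [← sy_mul' (prp h hk), h.nm p hp] at h1
  have h2 : lg (sy (ϖ k) ((p : ℕ) : eis)) = Pool.Agent.Y703.CQ.nr k p := by
    have h3 := sy_int (h.p k hk).pr (h.nm k hk) (p : ℤ)
    rw [Int.cast_natCast] at h3
    rw [h3, lg_J (h.p k hk).pr (ndv (h.p p hp).pr (h.p k hk).pr hne)]
  rw [h2] at h1
  rw [h1]
  linear_combination -z2_self (lg (sy (ϖ k) (ϖ p)))

lemma m_tf (h : Dt Q P ϖ) {p k : ℕ} (hp : p ∈ P) (hk : k ∈ P) (hne : p ≠ k) :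
    mm (pf Q ϖ) (p, true) (k, false) = lg (sy (ϖ k) (ϖ p)) + Pool.Agent.Y703.CQ.nr k p := by
  unfold mm
  rw [pf_t' h hp, pf_f' h hk]
  exact lg_cj h hp hk hne

lemma m_ft (h : Dt Q P ϖ) {p k : ℕ} (hp : p ∈ P) (hk : k ∈ P) (hne : p ≠ k) :
    mm (pf Q ϖ) (p, false) (k, true) = lg (sy (ϖ k) (ϖ p)) + Pool.Agent.Y703.CQ.nr k p := by
  unfold mm
  rw [pf_f' h hp, pf_t' h hk]
  have h1 : sy (cj (ϖ k)) (ϖ p) = sy (ϖ k) (cj (ϖ p)) := by
    rw [← sy_cj, cjcj]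
  rw [h1]
  exact lg_cj h hp hk hne

lemma m_self (h : Dt Q P ϖ) {p : ℕ} (hp : p ∈ P) :
    mm (pf Q ϖ) (p, true) (p, false) = (bt (ϖ p)).re + uu p + (bt (ϖ p)).re * uu p := by
  unfold mm
  rw [pf_t' h hp, pf_f' h hp]
  exact sy_self (h.p p hp).pr (h.p p hp).m3 (h.n1 p hp) (h.nm p hp)

lemma m_self' (h : Dt Q P ϖ) {p : ℕ} (hp : p ∈ P) :
    mm (pf Q ϖ) (p, false) (p, true) = (bt (ϖ p)).re + uu p + (bt (ϖ p)).re * uu p := by
  unfold mm
  rw [pf_t' h hp, pf_f' h hp]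
  have h1 : sy (cj (ϖ p)) (ϖ p) = sy (ϖ p) (cj (ϖ p)) := by
    rw [← sy_cj, cjcj]
  rw [h1]
  exact sy_self (h.p p hp).pr (h.p p hp).m3 (h.n1 p hp) (h.nm p hp)

lemma sp_neg (x : eis) : sp (-x) = sp x := Ideal.span_singleton_neg x

lemma sy_neg_mod (x y : eis) : sy (-x) y = sy x y := by
  classical
  have key : ∀ I K : Ideal eis, I = K →
      (if y ∈ I then (0 : ℂ) else if IsSquare (Ideal.Quotient.mk I y) then 1 else -1) =
      (if y ∈ K then (0 : ℂ) else if IsSquare (Ideal.Quotient.mk K y) then 1 else -1) := by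
    rintro I _ rfl
    rfl
  have := key _ _ (sp_neg x)
  unfold sy
  convert this

lemma sy_q {q : ℕ} (hq : InQ q) {x : eis} {n : ℕ} (hx : x * cj x = (n : eis)) :
    sy (-(q : eis)) x = ((J((n : ℤ) | q) : ℤ) : ℂ) := by
  rw [sy_neg_mod]
  exact Pool.Agent.L0h23.FR.sy_inert hq.pr hq.odd hq.m3 x hx

lemma m_pq (h : Dt Q P ϖ) {p q : ℕ} (hp : p ∈ P) (hq : q ∈ Q) (b : Bool) :
    mm (pf Q ϖ) (p, b) (q, false) = Pool.Agent.Y703.CQ.nr q p := by
  have hne : p ≠ q := fun h1 => pP h hp (h1 ▸ hq)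
  have h1 : pf Q ϖ (p, b) * cj (pf Q ϖ (p, b)) = ((p : ℕ) : eis) := by
    cases b
    · rw [pf_f' h hp]
      exact h.nm p hp
    · rw [pf_t' h hp, cjcj, mul_comm]
      exact h.nm p hp
  unfold mm
  rw [pf_Q hq, sy_q (h.q q hq) h1, lg_J (h.q q hq).pr (ndv (h.p p hp).pr (h.q q hq).pr hne)]

lemma tr_bt {x : eis} (h : N1 x) {p : ℕ} (hp : p.Prime) (h3 : p % 3 = 1)
    (hx : x * cj x = (p : eis)) : F4.tr (bt x) = uu p := by
  obtain ⟨c, d, -, e2, e3⟩ := co h hx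
  rw [e2, uu_co hp h3 e3]
  rfl

lemma F4_tr_cj (a : F4) : F4.tr (F4.cj a) = F4.tr a := by
  revert a
  decide

lemma t_p (h : Dt Q P ϖ) {p : ℕ} (hp : p ∈ P) (b : Bool) :
    F4.tr (bt (pf Q ϖ (p, b))) = uu p := by
  have h1 := tr_bt (h.n1 p hp) (h.p p hp).pr (h.p p hp).m3 (h.nm p hp)
  cases b
  · rw [pf_f' h hp, h1]
  · rw [pf_t' h hp, bt_cj (h.n1 p hp), F4_tr_cj, h1]

lemma r_f (h : Dt Q P ϖ) {p : ℕ} (hp : p ∈ P) :
    F4.tr (F4.w * bt (pf Q ϖ (p, false))) = (bt (ϖ p)).re + uu p := by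
  have h1 := tr_bt (h.n1 p hp) (h.p p hp).pr (h.p p hp).m3 (h.nm p hp)
  rw [pf_f' h hp, ← h1]
  generalize bt (ϖ p) = a
  revert a
  decide

lemma r_t (h : Dt Q P ϖ) {p : ℕ} (hp : p ∈ P) :
    F4.tr (F4.w * bt (pf Q ϖ (p, true))) = (bt (ϖ p)).re := by
  rw [pf_t' h hp, bt_cj (h.n1 p hp)]
  generalize bt (ϖ p) = a
  revert a
  decide

lemma m_qp (h : Dt Q P ϖ) {p q : ℕ} (hp : p ∈ P) (hq : q ∈ Q) (b : Bool) :
    mm (pf Q ϖ) (q, false) (p, b) = Pool.Agent.Y703.CQ.nr p q + uu p := by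
  have hne : q ≠ p := fun h1 => pP h hp (h1 ▸ hq)
  have key : lg (sy (ϖ p) (-(q : eis))) = Pool.Agent.Y703.CQ.nr p q + uu p := by
    have hpr := prp h hp
    have h2 := sy_int (h.p p hp).pr (h.nm p hp) (q : ℤ)
    rw [Int.cast_natCast] at h2
    have hq0 : ((q : ℕ) : eis) ∉ sp (ϖ p) := by
      have := (fx h).ne (q, false) (mem_ix.2 (Or.inl ⟨rfl, hq⟩)) (p, false) (mem_ix.2 (Or.inr hp))
        (fun h1 => hne (Prod.mk.inj h1).1)
      rw [pf_Q hq, pf_f' h hp] at this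
      intro h3
      exact this (neg_mem h3)
    have h3 : -(q : eis) = (-1) * ((q : ℕ) : eis) := by ring
    rw [h3, sy_mul' hpr, lg_mul (sy_neg_one hpr) (sy_sgn hq0), h2,
      lg_J (h.p p hp).pr (ndv (h.q q hq).pr (h.p p hp).pr hne),
      (t_SUP _ ⟨hpr, h.n1 p hp⟩).1, tr_bt (h.n1 p hp) (h.p p hp).pr (h.p p hp).m3 (h.nm p hp),
      add_comm]
  cases b
  · unfold mm
    rw [pf_Q hq, pf_f' h hp, key]
  · unfold mm
    have h1 : sy (cj (ϖ p)) (-(q : eis)) = sy (ϖ p) (-(q : eis)) := by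
      rw [← sy_cj (ϖ p) (-(q : eis))]
      congr 1
      have : cj (-(q : eis)) = cjh (-(q : eis)) := rfl
      rw [this, map_neg, map_natCast]
    rw [pf_Q hq, pf_t' h hp, h1, key]

lemma m_qq (h : Dt Q P ϖ) {q q' : ℕ} (hq : q ∈ Q) (hq' : q' ∈ Q) (hne : q ≠ q') :
    mm (pf Q ϖ) (q, false) (q', false) = 0 := by
  unfold mm
  have h1 : (-(q : eis)) * cj (-(q : eis)) = ((q ^ 2 : ℕ) : eis) := by
    have : cj (-(q : eis)) = cjh (-(q : eis)) := rfl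
    rw [this, map_neg, map_natCast]
    push_cast
    ring
  rw [pf_Q hq, pf_Q hq', sy_q (h.q q' hq') h1]
  have h2 : J(((q ^ 2 : ℕ) : ℤ) | q') = 1 := by
    push_cast
    apply jsq
    have := (Nat.coprime_primes (h.q q hq).pr (h.q q' hq').pr).2 hne
    exact_mod_cast (Nat.isCoprime_iff_coprime.2 this)
  rw [h2, Int.cast_one, lg_one]

lemma bt_q {q : ℕ} (hq : InQ q) : bt (-(q : eis)) = ⟨1 + uu q, 0⟩ := by
  have ho := hq.odd
  have e : -(q : eis) = 1 + 2 * ez (-(((q : ℤ) + 1) / 2)) 0 := by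
    have h1 : (q : ℤ) = 2 * (((q : ℤ) + 1) / 2) - 1 := by omega
    rw [ez_int]
    have h2 : ((q : ℕ) : eis) = (((q : ℤ)) : eis) := by push_cast; rfl
    rw [h2]
    conv_lhs => rw [h1]
    push_cast
    ring
  rw [e, bt_eq, rho_ez]
  unfold uu
  ext
  · show ((-(((q : ℤ) + 1) / 2) : ℤ) : ZMod 2) = 1 + _
    by_cases h4 : q % 4 = 3
    · rw [if_pos h4, zc_even (by omega)]
      decide
    · rw [if_neg h4, zc_odd (by omega)]
      decide
  · show ((0 : ℤ) : ZMod 2) = 0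
    exact Int.cast_zero

lemma t_q (h : Dt Q P ϖ) {q : ℕ} (hq : q ∈ Q) : F4.tr (bt (pf Q ϖ (q, false))) = 0 := by
  rw [pf_Q hq, bt_q (h.q q hq)]
  rfl

lemma r_q (h : Dt Q P ϖ) {q : ℕ} (hq : q ∈ Q) :
    F4.tr (F4.w * bt (pf Q ϖ (q, false))) = 1 + uu q := by
  rw [pf_Q hq, bt_q (h.q q hq)]
  generalize 1 + uu q = a
  revert a
  decide

end

/-- a choice of the generators for all the split primes -/
lemma exists_gens : ∃ ϖ : ℕ → eis, ∀ p, SpQ p → N1 (ϖ p) ∧ ϖ p * cj (ϖ p) = (p : eis) := by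
  classical
  have key : ∀ p, SpQ p → ∃ x : eis, N1 x ∧ x * cj x = (p : eis) := by
    intro p hp
    obtain ⟨ϖ, h⟩ := Pool.Agent.L0h80.F3.exists_Dt (Q := ∅) (P := {p})
      (fun q hq => absurd hq (Finset.notMem_empty q))
      (fun q hq => by rw [Finset.mem_singleton] at hq; exact hq ▸ hp)
    exact ⟨ϖ p, h.n1 p (Finset.mem_singleton_self p), h.nm p (Finset.mem_singleton_self p)⟩
  choose! f hf using key
  exact ⟨f, hf⟩

/-- the reciprocity law -/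
theorem recA {ϖ : ℕ → eis} (hϖ : ∀ p, SpQ p → N1 (ϖ p) ∧ ϖ p * cj (ϖ p) = (p : eis)) :
    Pool.Agent.L0h74.T3.RecA (fun p k => lg (sy (ϖ p) (ϖ k)) + uu p * uu k +
      uu p * (bt (ϖ k)).re) := by
  intro p q hp hq hne hp3 hq3
  have h1 : ∀ {p : ℕ}, Pool.Agent.L0h74.T3.Pr p → Pool.Agent.L0h74.T3.m3 p = 1 → SpQ p := by
    intro p hp hp3
    refine ⟨hp.1, ?_⟩
    unfold Pool.Agent.L0h74.T3.m3 at hp3
    by_contra h2
    rw [if_neg h2] at hp3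
    exact absurd hp3 (by norm_num)
  have sp1 := h1 hp hp3
  have sp2 := h1 hq hq3
  have hd : Dt ∅ {p, q} ϖ := by
    refine ⟨fun q hq => absurd hq (Finset.notMem_empty q), fun r hr => ?_, fun r hr => ?_,
      fun r hr => ?_⟩ <;> rw [Finset.mem_insert, Finset.mem_singleton] at hr <;>
      rcases hr with rfl | rfl
    · exact sp1
    · exact sp2
    · exact (hϖ _ sp1).1
    · exact (hϖ _ sp2).1
    · exact (hϖ _ sp1).2
    · exact (hϖ _ sp2).2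
  have hpP : p ∈ ({p, q} : Finset ℕ) := Finset.mem_insert_self _ _
  have hqP : q ∈ ({p, q} : Finset ℕ) := Finset.mem_insert_of_mem (Finset.mem_singleton_self _)
  have hnot : ϖ p ∉ sp (ϖ q) := by
    have := (fx hd).ne (p, false) (mem_ix.2 (Or.inr hpP)) (q, false) (mem_ix.2 (Or.inr hqP))
      (fun h1 => hne (Prod.mk.inj h1).1)
    rwa [pf_f' hd hpP, pf_f' hd hqP] at this
  have hrec := t_REC (ϖ p) (ϖ q) ⟨prp hd hpP, hd.n1 p hpP⟩ ⟨prp hd hqP, hd.n1 q hqP⟩ hnot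
  have t1 := tr_bt (hϖ _ sp1).1 sp1.pr sp1.m3 (hϖ _ sp1).2
  have t2 := tr_bt (hϖ _ sp2).1 sp2.pr sp2.m3 (hϖ _ sp2).2
  beta_reduce
  rw [← t1, ← t2]
  generalize lg (sy (ϖ p) (ϖ q)) = x at hrec ⊢
  generalize lg (sy (ϖ q) (ϖ p)) = y at hrec ⊢
  generalize bt (ϖ p) = a at hrec ⊢
  generalize bt (ϖ q) = b at hrec ⊢
  revert x y a b
  decide

end Pool.Agent.L0h86.T3
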